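import Pool.Agent.Helper80.E67678.Main

set_option autoImplicit false

open Set Pool.Agent.Helper80.E67678

namespace Pool.Agent.Results.MP_e67678_an.Discontinuous

/-- Negative answer to Fremlin's question: there are a set `I`, a family `D` of finite subsets of
`I` covering `I` and directed upwards, a real Banach space `E` and an `(I, D)`-conditional basis of
`E` one of whose coefficient functionals is discontinuous. (Here `E = ℝ × ℓ₁(ℕ × ℤ)`.) -/
theorem result : ∃ (I : Type) (D : Set (Finset I)),
    (⋃ d ∈ D, (d : Set I)) = univ ∧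
    (∀ d ∈ D, ∀ d' ∈ D, ∃ d'' ∈ D, (d : Set I) ∪ (d' : Set I) ⊆ (d'' : Set I)) ∧
    ∃ (E : Type) (_ : NormedAddCommGroup E) (_ : NormedSpace ℝ E) (_ : CompleteSpace E)
      (x : I → E), IsCondBasis D x ∧
      ∃ (i : I) (f : E → ℝ), (∀ v α, DSum D x α v → f v = α i) ∧ ¬ Continuous f :=
  Pool.Agent.Helper80.E67678.main

end Pool.Agent.Results.MP_e67678_an.Discontinuous
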